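import Mathlib
import Pool.Agent.W166.Gnp.Basic

/-!
# Product Bernoulli measures on `B → Bool` and the finite sums of `W166.Gnp`
-/

set_option linter.unusedSectionVars false

namespace Q299.Dep

open MeasureTheory ProbabilityTheory Finset

open Pool.Agent.W166.Gnp

/-- Bernoulli measure on `Bool`. -/
noncomputable def bern (p : ℝ) : Measure Bool :=
  ENNReal.ofReal p • Measure.dirac true + ENNReal.ofReal (1 - p) • Measure.dirac false

lemma bern_true (p : ℝ) : bern p {true} = ENNReal.ofReal p := by
  simp [bern]

lemma bern_false (p : ℝ) : bern p {false} = ENNReal.ofReal (1 - p) := by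
  simp [bern]

lemma bern_prob {p : ℝ} (h0 : 0 ≤ p) (h1 : p ≤ 1) : IsProbabilityMeasure (bern p) := by
  constructor
  simp only [bern, Measure.coe_add, Measure.coe_smul, Pi.add_apply, Pi.smul_apply,
    measure_univ, smul_eq_mul, mul_one]
  rw [← ENNReal.ofReal_add h0 (by linarith)]
  simp

variable {B : Type} [Fintype B] [DecidableEq B]

/-- product Bernoulli measure -/
noncomputable def prodB (B : Type) [Fintype B] (p : ℝ) : Measure (B → Bool) :=
  Measure.pi (fun _ => bern p)

lemma prodB_prob {p : ℝ} (h0 : 0 ≤ p) (h1 : p ≤ 1) : IsProbabilityMeasure (prodB B p) := by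
  have := bern_prob h0 h1
  unfold prodB
  infer_instance

/-- the set of successes -/
def supp (ω : B → Bool) : Finset B := univ.filter (fun b => ω b = true)

lemma mem_supp {ω : B → Bool} {b : B} : b ∈ supp ω ↔ ω b = true := by simp [supp]

lemma prodB_singleton {p : ℝ} (h0 : 0 ≤ p) (h1 : p ≤ 1) (ω : B → Bool) :
    prodB B p {ω} = ENNReal.ofReal (p ^ (supp ω).card * (1 - p) ^ (Fintype.card B - (supp ω).card)) := by
  have := bern_prob h0 h1
  unfold prodB
  rw [← Set.univ_pi_singleton, Measure.pi_pi]
  have h2 : ∀ b : B, bern p {ω b} = ENNReal.ofReal (if ω b = true then p else 1 - p) := by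
    intro b
    cases ω b
    · simp [bern_false]
    · simp [bern_true]
  simp_rw [h2]
  rw [← ENNReal.ofReal_prod_of_nonneg]
  · congr 1
    rw [prod_ite]
    simp only [prod_const]
    have h3 : (univ.filter (fun b => ¬ ω b = true)).card = Fintype.card B - (supp ω).card := by
      have := card_filter_add_card_filter_not (s := (univ : Finset B)) (fun b => ω b = true)
      rw [card_univ] at this
      unfold supp
      omega
    rw [h3]
    rfl
  · intro b _
    split_ifs
    · exact h0
    · linarith

theorem prodB_eq_Pr {p : ℝ} (h0 : 0 ≤ p) (h1 : p ≤ 1) (A : Finset B → Prop) :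
    prodB B p {ω | A (supp ω)} = ENNReal.ofReal (Pr (univ : Finset B) p A) := by
  classical
  have h2 : {ω : B → Bool | A (supp ω)} =
      ((univ.filter (fun ω : B → Bool => A (supp ω)) : Finset (B → Bool)) : Set (B → Bool)) := by
    ext ω; simp
  rw [h2, ← sum_measure_singleton]
  simp_rw [prodB_singleton h0 h1]
  rw [← ENNReal.ofReal_sum_of_nonneg]
  · congr 1
    unfold Pr Ex
    rw [sum_filter]
    symm
    refine sum_nbij' (fun S => fun b => decide (b ∈ S)) (fun ω => supp ω) ?_ ?_ ?_ ?_ ?_
    · intro S _; exact mem_univ _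
    · intro ω _; simp
    · intro S _
      ext b; simp [supp]
    · intro ω _
      funext b
      simp [supp]
    · intro S _
      have : supp (fun b => decide (b ∈ S)) = S := by ext b; simp [supp]
      rw [this, card_univ]
      by_cases hA : A S
      · simp [hA]
      · simp [hA]
  · intro ω _
    exact mul_nonneg (pow_nonneg h0 _) (pow_nonneg (by linarith) _)

theorem prodB_real_eq_Pr {p : ℝ} (h0 : 0 ≤ p) (h1 : p ≤ 1) (A : Finset B → Prop) :
    (prodB B p).real {ω | A (supp ω)} = Pr (univ : Finset B) p A := by
  rw [Measure.real, prodB_eq_Pr h0 h1, ENNReal.toReal_ofReal (Pr_nonneg h0 h1 A)]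

end Q299.Dep
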