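import Mathlib

/-!
# Locally dependent random graphs: definitions
-/

namespace Q299.Dep

open MeasureTheory ProbabilityTheory

/-- The potential edges: unordered pairs of distinct elements of `[n]`. -/
abbrev Pairs (n : ℕ) : Type := {e : Sym2 (Fin n) // ¬ e.IsDiag}

/-- Graphs on `[n]` form a finite set, with the discrete sigma-algebra. -/
instance graphMeasurableSpace (n : ℕ) : MeasurableSpace (SimpleGraph (Fin n)) := ⊤

/-- `μ` is the law of a `d`-dependent random graph on `[n]` with edge probability `p`:
every potential edge is present with probability exactly `p`, and the edge indicators have a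
dependency graph `D` of maximum degree at most `d`, i.e. the indicator of `e` is independent of the
family of all the indicators of the `f ≠ e` that are not adjacent to `e` in `D`. -/
structure IsDDependent (n d : ℕ) (p : ℝ) (μ : Measure (SimpleGraph (Fin n))) : Prop where
  prob : IsProbabilityMeasure μ
  edge : ∀ e : Pairs n, μ {G | e.1 ∈ G.edgeSet} = ENNReal.ofReal p
  dep : ∃ D : SimpleGraph (Pairs n), (∀ e, (D.neighborSet e).ncard ≤ d) ∧
    ∀ e : Pairs n, IndepFun (fun G : SimpleGraph (Fin n) => e.1 ∈ G.edgeSet)
      (fun (G : SimpleGraph (Fin n)) (f : {f : Pairs n // f ≠ e ∧ ¬ D.Adj e f}) =>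
        f.1.1 ∈ G.edgeSet) μ

end Q299.Dep
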