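import Pool.Agent.Q299.Dep.Ber
import Pool.Agent.Q299.Dep.Defs

/-!
# Block models: all the edges of a block are present or absent together
-/

set_option linter.unusedSectionVars false

namespace Q299.Dep

open MeasureTheory ProbabilityTheory Finset

open Pool.Agent.W166.Gnp

variable {n : ℕ} {B : Type} [Fintype B] [DecidableEq B]

/-- graph of the present blocks -/
def blockGraph (β : Pairs n → B) (R : Finset B) : SimpleGraph (Fin n) :=
  SimpleGraph.fromEdgeSet {e | ∃ h : ¬ e.IsDiag, β ⟨e, h⟩ ∈ R}

lemma mem_blockGraph (β : Pairs n → B) (R : Finset B) (e : Pairs n) :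
    e.1 ∈ (blockGraph β R).edgeSet ↔ β e ∈ R := by
  unfold blockGraph
  rw [SimpleGraph.edgeSet_fromEdgeSet]
  constructor
  · rintro ⟨⟨h, h2⟩, _⟩
    exact h2
  · intro h
    exact ⟨⟨e.2, h⟩, e.2⟩

/-- law of the block model -/
noncomputable def blockLaw (β : Pairs n → B) (p : ℝ) : Measure (SimpleGraph (Fin n)) :=
  (prodB B p).map (fun ω => blockGraph β (supp ω))

lemma measurable_of_fin {X : Type*} [MeasurableSpace X] (f : (B → Bool) → X) : Measurable f :=
  measurable_of_finite f

lemma blockLaw_apply (β : Pairs n → B) (p : ℝ) (A : SimpleGraph (Fin n) → Prop) :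
    blockLaw β p {G | A G} = prodB B p {ω | A (blockGraph β (supp ω))} := by
  unfold blockLaw
  rw [Measure.map_apply (measurable_of_fin _) (by trivial)]
  rfl

theorem blockLaw_eq_Pr (β : Pairs n → B) {p : ℝ} (h0 : 0 ≤ p) (h1 : p ≤ 1)
    (A : SimpleGraph (Fin n) → Prop) :
    blockLaw β p {G | A G} = ENNReal.ofReal (Pr (univ : Finset B) p (fun R => A (blockGraph β R))) := by
  rw [blockLaw_apply, ← prodB_eq_Pr h0 h1]

lemma blockLaw_prob (β : Pairs n → B) {p : ℝ} (h0 : 0 ≤ p) (h1 : p ≤ 1) :
    IsProbabilityMeasure (blockLaw β p) := by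
  have := prodB_prob (B := B) h0 h1
  unfold blockLaw
  exact Measure.isProbabilityMeasure_map (measurable_of_fin _).aemeasurable

theorem isDDependent_blockLaw (β : Pairs n → B) {p : ℝ} (h0 : 0 ≤ p) (h1 : p ≤ 1) (d : ℕ)
    (hβ : ∀ b, (univ.filter (fun e => β e = b)).card ≤ d + 1) :
    IsDDependent n d p (blockLaw β p) := by
  have hp := prodB_prob (B := B) h0 h1
  have hbp := bern_prob h0 h1
  refine ⟨blockLaw_prob β h0 h1, ?_, ?_⟩
  · intro e
    rw [blockLaw_eq_Pr β h0 h1]
    congr 1
    have h2 : Pr (univ : Finset B) p (fun R => e.1 ∈ (blockGraph β R).edgeSet) =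
        Pr (univ : Finset B) p (fun R => {β e} ⊆ R) := by
      congr 1
      funext R
      rw [mem_blockGraph, singleton_subset_iff]
    rw [h2, Pr_superset (subset_univ _)]
    simp
  · -- dependency graph
    refine ⟨SimpleGraph.mk (fun e f => e ≠ f ∧ β e = β f)
      ⟨by rintro e f ⟨h1, h2⟩; exact ⟨h1.symm, h2.symm⟩⟩ ⟨by rintro e ⟨h1, _⟩; exact h1 rfl⟩, ?_, ?_⟩
    · intro e
      have : (SimpleGraph.neighborSet (SimpleGraph.mk (fun e f : Pairs n => e ≠ f ∧ β e = β f)
          ⟨by rintro e f ⟨h1, h2⟩; exact ⟨h1.symm, h2.symm⟩⟩ ⟨by rintro e ⟨h1, _⟩; exact h1 rfl⟩) e) =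
          (((univ.filter (fun f => β f = β e)).erase e : Finset (Pairs n)) : Set (Pairs n)) := by
        ext f
        simp only [SimpleGraph.mem_neighborSet, coe_erase, coe_filter, mem_univ, true_and,
          Set.mem_sdiff, Set.mem_ofPred_eq, Set.mem_singleton_iff]
        constructor
        · rintro ⟨h1, h2⟩
          exact ⟨h2.symm, fun h => h1 h.symm⟩
        · rintro ⟨h1, h2⟩
          exact ⟨fun h => h2 h.symm, h1.symm⟩
      rw [this, Set.ncard_coe_finset, card_erase_of_mem (by simp)]
      have := hβ (β e)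
      omega
    · intro e
      have hind : iIndepFun (fun (b : B) (ω : B → Bool) => ω b) (prodB B p) := by
        unfold prodB
        exact iIndepFun_pi (X := fun (b : B) (x : Bool) => x) (fun b => aemeasurable_id)
      have h2 := hind.indepFun_finset {β e} (univ.erase (β e)) (by simp) (fun b => measurable_pi_apply b)
      rw [indepFun_iff_measure_inter_preimage_eq_mul]
      intro s t hs ht
      have hmap : ∀ (Q : Set (SimpleGraph (Fin n))), blockLaw β p Q =
          prodB B p ((fun ω => blockGraph β (supp ω)) ⁻¹' Q) := by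
        intro Q
        unfold blockLaw
        rw [Measure.map_apply (measurable_of_fin _) (by trivial)]
      rw [hmap, hmap, hmap]
      rw [indepFun_iff_measure_inter_preimage_eq_mul] at h2
      -- write the events in terms of the coordinates
      have hs' : (fun ω => blockGraph β (supp ω)) ⁻¹'
          ((fun G : SimpleGraph (Fin n) => e.1 ∈ G.edgeSet) ⁻¹' s) =
          (fun (a : B → Bool) (i : ({β e} : Finset B)) => a i) ⁻¹'
            {x | (x ⟨β e, by simp⟩ = true) ∈ s} := by
        ext ω
        simp only [Set.mem_preimage, mem_blockGraph, mem_supp, Set.mem_ofPred_eq]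
      have ht' : (fun ω => blockGraph β (supp ω)) ⁻¹'
          ((fun (G : SimpleGraph (Fin n)) (f : {f : Pairs n // f ≠ e ∧
            ¬ (SimpleGraph.mk (fun e f : Pairs n => e ≠ f ∧ β e = β f)
              ⟨by rintro e f ⟨h1, h2⟩; exact ⟨h1.symm, h2.symm⟩⟩
              ⟨by rintro e ⟨h1, _⟩; exact h1 rfl⟩).Adj e f}) => f.1.1 ∈ G.edgeSet) ⁻¹' t) =
          (fun (a : B → Bool) (i : ((univ : Finset B).erase (β e) : Finset B)) => a i) ⁻¹'
            {x | (fun (f : {f : Pairs n // f ≠ e ∧
            ¬ (SimpleGraph.mk (fun e f : Pairs n => e ≠ f ∧ β e = β f)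
              ⟨by rintro e f ⟨h1, h2⟩; exact ⟨h1.symm, h2.symm⟩⟩
              ⟨by rintro e ⟨h1, _⟩; exact h1 rfl⟩).Adj e f}) =>
              (x ⟨β f.1, by
                simp only [mem_erase, mem_univ, and_true]
                intro h
                exact f.2.2 ⟨f.2.1.symm, h.symm⟩⟩ = true)) ∈ t} := by
        ext ω
        simp only [Set.mem_preimage, mem_blockGraph, mem_supp, Set.mem_ofPred_eq]
      rw [Set.preimage_inter, hs', ht']
      apply h2
      · exact MeasurableSet.of_discrete
      · exact MeasurableSet.of_discrete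

end Q299.Dep
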