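import Pool.Agent.Q299.Dep.Ber
import Pool.Agent.W166.Gnp.Tail

/-!
# Hitting pairs of disjoint families
-/

set_option linter.unusedSectionVars false

namespace Q299.Dep

open Finset

open Pool.Agent.W166.Gnp

variable {α : Type} [DecidableEq α]

/-- probability of missing a given set -/
theorem Pr_miss {E D : Finset α} (hD : D ⊆ E) (p : ℝ) :
    Pr E p (fun S => ∀ y ∈ D, y ∉ S) = (1 - p) ^ D.card := by
  classical
  have h1 : Pr E p (fun S => ∀ y ∈ D, y ∉ S) = Pr D p (fun S => ∀ y ∈ D, y ∉ S) := by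
    rw [← Pr_marg hD p (A := fun S => ∀ y ∈ D, y ∉ S)]
    congr 1
    funext S
    apply propext
    constructor
    · intro h y hy hy'
      exact h y hy (mem_inter.1 hy').1
    · intro h y hy hy'
      exact h y hy (mem_inter.2 ⟨hy', hy⟩)
  rw [h1]
  unfold Pr Ex
  rw [sum_eq_single ∅]
  · simp
  · intro S hS hne
    rw [mem_powerset] at hS
    obtain ⟨y, hy⟩ := nonempty_iff_ne_empty.2 hne
    beta_reduce
    rw [if_neg (fun h => h y (hS hy) hy), mul_zero]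
  · intro h
    exact absurd (mem_powerset.2 (empty_subset _)) h

theorem Pr_hit {E D : Finset α} (hD : D ⊆ E) (p : ℝ) :
    Pr E p (fun S => ∃ y ∈ D, y ∈ S) = 1 - (1 - p) ^ D.card := by
  rw [← Pr_miss hD p, ← Pr_not]
  congr 1
  funext S
  apply propext
  push Not
  rfl

/-- independence of two disjoint blocks -/
theorem Pr_and {X Y : Finset α} (hd : Disjoint X Y) (p : ℝ) (A B : Finset α → Prop) :
    Pr (X ∪ Y) p (fun S => A (S ∩ X) ∧ B (S ∩ Y)) = Pr X p A * Pr Y p B := by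
  classical
  unfold Pr
  rw [Ex_union hd]
  have h1 : ∀ S, S ⊆ X → Ex Y p (fun T => if A ((S ∪ T) ∩ X) ∧ B ((S ∪ T) ∩ Y) then (1 : ℝ) else 0)
      = (if A S then 1 else 0) * Ex Y p (fun T => if B T then (1 : ℝ) else 0) := by
    intro S hS
    rw [← Ex_smul]
    apply Ex_congr
    intro T hT
    have e1 : (S ∪ T) ∩ X = S := by
      rw [union_inter_distrib_right, inter_eq_left.2 hS,
        disjoint_iff_inter_eq_empty.1 ((hd.mono_right hT).symm), union_empty]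
    have e2 : (S ∪ T) ∩ Y = T := by
      rw [union_inter_distrib_right, inter_eq_left.2 hT,
        disjoint_iff_inter_eq_empty.1 (hd.mono_left hS), empty_union]
    rw [e1, e2]
    by_cases hA : A S <;> by_cases hB : B T <;> simp [hA, hB]
  beta_reduce
  refine (Ex_congr (g := fun S => (if A S then 1 else 0) *
    Ex Y p (fun T => if B T then (1 : ℝ) else 0)) ?_).trans ?_
  · intro S hS
    beta_reduce
    rw [← h1 S hS]
    congr 1
    funext T
    congr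
  · rw [mul_comm (Ex X p _)]
    rw [← Ex_smul]
    apply Ex_congr
    intro S _
    ring

/-- If `T` indexes pairwise disjoint blocks, each containing two disjoint families with at least
`h` elements, then it is unlikely that no block has both its families hit. -/
theorem hit_pairs {ι : Type} [DecidableEq ι] {E : Finset α} {p : ℝ} (h0 : 0 ≤ p) (h1 : p ≤ 1)
    (T : Finset ι) (Y Z : ι → Finset α) (hY : ∀ c ∈ T, Y c ⊆ E) (hZ : ∀ c ∈ T, Z c ⊆ E)
    (hd : (T : Set ι).PairwiseDisjoint (fun c => Y c ∪ Z c)) (hYZ : ∀ c ∈ T, Disjoint (Y c) (Z c))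
    (h : ℕ) (hYh : ∀ c ∈ T, h ≤ (Y c).card) (hZh : ∀ c ∈ T, h ≤ (Z c).card) :
    Pr E p (fun S => ∀ c ∈ T, ¬ ((∃ y ∈ Y c, y ∈ S) ∧ (∃ z ∈ Z c, z ∈ S))) ≤
      2 * Real.exp (-((1 - (1 - p) ^ h) ^ 2 * T.card / 2)) := by
  classical
  have hq0 : 0 ≤ 1 - (1 - p) ^ h := by
    have := pow_le_one₀ (n := h) (by linarith : (0 : ℝ) ≤ 1 - p) (by linarith)
    linarith
  have hmono : ∀ k, h ≤ k → 1 - (1 - p) ^ h ≤ 1 - (1 - p) ^ k := by
    intro k hk
    have := pow_le_pow_of_le_one (by linarith : (0 : ℝ) ≤ 1 - p) (by linarith) hk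
    linarith
  have key := lower_tail (E := E) h0 h1 T (fun c => Y c ∪ Z c)
    (fun c hc => union_subset (hY c hc) (hZ c hc)) hd
    (fun c S => (∃ y ∈ Y c, y ∈ S) ∧ (∃ z ∈ Z c, z ∈ S)) ((1 - (1 - p) ^ h) ^ 2) (by
      intro c hc
      have e1 : Pr (Y c ∪ Z c) p (fun S => (∃ y ∈ Y c, y ∈ S) ∧ (∃ z ∈ Z c, z ∈ S)) =
          Pr (Y c ∪ Z c) p (fun S => (∃ y ∈ Y c, y ∈ S ∩ Y c) ∧ (∃ z ∈ Z c, z ∈ S ∩ Z c)) := by
        congr 1
        funext S
        apply propext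
        constructor
        · rintro ⟨⟨y, hy, hy'⟩, ⟨z, hz, hz'⟩⟩
          exact ⟨⟨y, hy, mem_inter.2 ⟨hy', hy⟩⟩, ⟨z, hz, mem_inter.2 ⟨hz', hz⟩⟩⟩
        · rintro ⟨⟨y, hy, hy'⟩, ⟨z, hz, hz'⟩⟩
          exact ⟨⟨y, hy, (mem_inter.1 hy').1⟩, ⟨z, hz, (mem_inter.1 hz').1⟩⟩
      rw [e1, Pr_and (hYZ c hc) p (fun S => ∃ y ∈ Y c, y ∈ S) (fun S => ∃ z ∈ Z c, z ∈ S),
        Pr_hit subset_rfl, Pr_hit subset_rfl, sq]
      exact mul_le_mul (hmono _ (hYh c hc)) (hmono _ (hZh c hc)) hq0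
        (hq0.trans (hmono _ (hYh c hc)))) 1
  refine le_trans (Pr_mono h0 h1 ?_) (by simpa using key)
  intro S _ hS
  show cnt T _ _ S = 0
  unfold cnt
  rw [card_eq_zero]
  apply eq_empty_of_forall_notMem
  intro c hc'
  simp only [mem_filter] at hc'
  obtain ⟨hc, ⟨⟨y, hy, hy'⟩, ⟨z, hz, hz'⟩⟩⟩ := hc'
  exact hS c hc ⟨⟨y, hy, (mem_inter.1 hy').1⟩, ⟨z, hz, (mem_inter.1 hz').1⟩⟩

end Q299.Dep
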