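import Pool.Agent.Q299.Dep.Block
import Pool.Agent.Q299.Dep.Hit

/-!
# A locally dependent random graph that is connected at density `o(log n / n)`

Vertices are divided into groups of `g` consecutive ones (`g` prime, the last group may be
smaller). For two groups `a < c` and a residue `s` mod `g` the edges `v w` with `v` in `a`, `w` in
`c` and `w - v = s` mod `g` form one block.
-/

set_option linter.unusedSectionVars false

namespace Q299.Dep

open MeasureTheory ProbabilityTheory Finset

open Pool.Agent.W166.Gnp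

variable {n g : ℕ} [hg : Fact g.Prime]

/-- group of a vertex -/
def grp (g : ℕ) (v : Fin n) : Fin n := ⟨v.1 / g, lt_of_le_of_lt (Nat.div_le_self _ _) v.2⟩

/-- type of blocks -/
abbrev Blk (n g : ℕ) : Type := (Fin n × Fin n × ZMod g) ⊕ Pairs n

/-- block of an edge -/
def blk (g : ℕ) (e : Pairs n) : Blk n g :=
  if grp g e.1.inf = grp g e.1.sup then Sum.inr e
  else Sum.inl (grp g e.1.inf, grp g e.1.sup, ((e.1.sup : ℕ) : ZMod g) - ((e.1.inf : ℕ) : ZMod g))

lemma grp_mono {v w : Fin n} (h : v ≤ w) : grp g v ≤ grp g w := by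
  show v.1 / g ≤ w.1 / g
  exact Nat.div_le_div_right h

lemma lt_of_grp_lt {v w : Fin n} (h : grp g v < grp g w) : v < w := by
  by_contra hcon
  push Not at hcon
  exact absurd (grp_mono (g := g) hcon) (not_le.2 h)

lemma adj_iff {v w : Fin n} (h : grp g v < grp g w) (R : Finset (Blk n g)) :
    (blockGraph (blk g) R).Adj v w ↔
      (Sum.inl (grp g v, grp g w, ((w : ℕ) : ZMod g) - ((v : ℕ) : ZMod g)) : Blk n g) ∈ R := by
  have hlt : v < w := lt_of_grp_lt h
  have hnd : ¬ (s(v, w)).IsDiag := by simpa using hlt.ne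
  have := mem_blockGraph (blk g) R ⟨s(v, w), hnd⟩
  rw [SimpleGraph.mem_edgeSet] at this
  rw [this]
  unfold blk
  simp only [Sym2.inf_mk, Sym2.sup_mk, inf_of_le_left hlt.le, sup_of_le_right hlt.le]
  rw [if_neg h.ne]

/-- the vertex of the group `a` with residue `x` -/
def vx (a : Fin n) (ha : (a.1 + 1) * g ≤ n) (x : ZMod g) : Fin n :=
  ⟨a.1 * g + x.val, by
    have := ZMod.val_lt x
    have h2 : (a.1 + 1) * g = a.1 * g + g := by ring
    omega⟩

lemma grp_vx (a : Fin n) (ha : (a.1 + 1) * g ≤ n) (x : ZMod g) : grp g (vx a ha x) = a := by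
  apply Fin.ext
  show (a.1 * g + x.val) / g = a.1
  rw [mul_comm, Nat.mul_add_div hg.1.pos, Nat.div_eq_of_lt (ZMod.val_lt x), add_zero]

lemma cast_vx (a : Fin n) (ha : (a.1 + 1) * g ≤ n) (x : ZMod g) :
    (((vx a ha x : Fin n) : ℕ) : ZMod g) = x := by
  show ((a.1 * g + x.val : ℕ) : ZMod g) = x
  push_cast
  simp

lemma eq_vx (a : Fin n) (ha : (a.1 + 1) * g ≤ n) (v : Fin n) (hv : grp g v = a) :
    v = vx a ha ((v : ℕ) : ZMod g) := by
  apply Fin.ext
  show v.1 = a.1 * g + ((v.1 : ℕ) : ZMod g).val
  rw [ZMod.val_natCast, ← hv]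
  show v.1 = v.1 / g * g + v.1 % g
  exact (Nat.div_add_mod' _ _).symm

/-- some block between the groups `a` and `c` is present -/
def Joined (R : Finset (Blk n g)) (a c : Fin n) : Prop :=
  ∃ s : ZMod g, (Sum.inl (min a c, max a c, s) : Blk n g) ∈ R

lemma exists_nbr {R : Finset (Blk n g)} {a c : Fin n} (hac : a ≠ c) (hc : (c.1 + 1) * g ≤ n)
    (hj : Joined R a c) (v : Fin n) (hv : grp g v = a) :
    ∃ w, grp g w = c ∧ (blockGraph (blk g) R).Adj v w := by
  obtain ⟨s, hs⟩ := hj
  rcases lt_or_gt_of_ne hac with h | h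
  · rw [min_eq_left h.le, max_eq_right h.le] at hs
    refine ⟨vx c hc (((v : ℕ) : ZMod g) + s), grp_vx _ _ _, ?_⟩
    rw [adj_iff (by rw [grp_vx, hv]; exact h), hv, grp_vx, cast_vx]
    simpa using hs
  · rw [min_eq_right h.le, max_eq_left h.le] at hs
    refine ⟨vx c hc (((v : ℕ) : ZMod g) - s), grp_vx _ _ _, ?_⟩
    apply SimpleGraph.Adj.symm
    rw [adj_iff (by rw [grp_vx, hv]; exact h), hv, grp_vx, cast_vx]
    simpa using hs

theorem connected_of (R : Finset (Blk n g)) (z : Fin n) (hz : z.1 = 0) (hg0 : g ≤ n)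
    (h1 : ∀ a : Fin n, a ≠ z → a.1 * g < n → ∃ c : Fin n, c ≠ z ∧ c ≠ a ∧ (c.1 + 1) * g ≤ n ∧
      Joined R a c ∧ Joined R z c)
    (h2 : ∃ (c : Fin n) (s s' : ZMod g), c ≠ z ∧ (c.1 + 1) * g ≤ n ∧ s ≠ s' ∧
      (Sum.inl (z, c, s) : Blk n g) ∈ R ∧ (Sum.inl (z, c, s') : Blk n g) ∈ R) :
    (blockGraph (blk g) R).Connected := by
  set H := blockGraph (blk g) R with hH
  have hz0 : (z.1 + 1) * g ≤ n := by rw [hz]; simpa using hg0
  obtain ⟨c, s, s', hcz, hc, hss, hs, hs'⟩ := h2
  have hzc : z < c := by
    rw [Fin.lt_def, hz]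
    have : c.1 ≠ z.1 := fun h => hcz (Fin.ext h)
    omega
  -- translation step
  have hstep : ∀ x : ZMod g, H.Reachable (vx z hz0 x) (vx z hz0 (x + (s - s'))) := by
    intro x
    have a1 : H.Adj (vx z hz0 x) (vx c hc (x + s)) := by
      rw [hH, adj_iff (by rw [grp_vx, grp_vx]; exact hzc), grp_vx, grp_vx, cast_vx, cast_vx]
      simpa using hs
    have a2 : H.Adj (vx z hz0 (x + (s - s'))) (vx c hc (x + s)) := by
      rw [hH, adj_iff (by rw [grp_vx, grp_vx]; exact hzc), grp_vx, grp_vx, cast_vx, cast_vx]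
      have : x + s - (x + (s - s')) = s' := by ring
      rw [this]; exact hs'
    exact a1.reachable.trans a2.symm.reachable
  have hmul : ∀ (k : ℕ) (x : ZMod g), H.Reachable (vx z hz0 x) (vx z hz0 (x + k * (s - s'))) := by
    intro k
    induction k with
    | zero => intro x; simp
    | succ k ih =>
      intro x
      have := (ih x).trans (hstep _)
      have e : x + (k : ZMod g) * (s - s') + (s - s') = x + ((k + 1 : ℕ) : ZMod g) * (s - s') := by
        push_cast; ring
      rw [e] at this
      exact this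
  have hall0 : ∀ x y : ZMod g, H.Reachable (vx z hz0 x) (vx z hz0 y) := by
    intro x y
    have h := hmul ((y - x) / (s - s')).val x
    have hne : s - s' ≠ 0 := sub_ne_zero.2 hss
    have e : x + ((((y - x) / (s - s')).val : ℕ) : ZMod g) * (s - s') = y := by
      rw [ZMod.natCast_zmod_val, div_mul_cancel₀ _ hne]
      ring
    rw [e] at h
    exact h
  have hgz : ∀ v : Fin n, grp g v = z → H.Reachable (vx z hz0 0) v := by
    intro v hv
    rw [eq_vx z hz0 v hv]
    exact hall0 _ _
  have hall : ∀ v : Fin n, H.Reachable (vx z hz0 0) v := by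
    intro v
    by_cases hvz : grp g v = z
    · exact hgz v hvz
    · have hlt : (grp g v).1 * g < n := lt_of_le_of_lt (Nat.div_mul_le_self _ _) v.2
      obtain ⟨c', hc'z, hc'a, hc'f, hj1, hj2⟩ := h1 (grp g v) hvz hlt
      obtain ⟨w, hw, hvw⟩ := exists_nbr (R := R) hc'a.symm hc'f hj1 v rfl
      obtain ⟨u, hu, hwu⟩ := exists_nbr (R := R) (a := c') (c := z) hc'z hz0 (by
        obtain ⟨s, hs⟩ := hj2
        exact ⟨s, by rwa [min_comm, max_comm]⟩) w hw
      exact (hgz u hu).trans (hvw.reachable.trans hwu.reachable).symm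
  exact (SimpleGraph.connected_iff_exists_forall_reachable _).2 ⟨_, hall⟩

/-- blocks have at most `g` edges -/
theorem blk_card (hgn : 1 ≤ g) (b : Blk n g) :
    (univ.filter (fun e => blk g e = b)).card ≤ (g - 1) + 1 := by
  classical
  rw [Nat.sub_add_cancel hgn]
  rcases b with ⟨a, c, s⟩ | e0
  · -- the lower end determines the edge, and it lies in the group `a`
    have hsub : ∀ e ∈ univ.filter (fun e : Pairs n => blk g e = Sum.inl (a, c, s)),
        grp g e.1.inf = a ∧ grp g e.1.sup = c ∧
        ((e.1.sup : ℕ) : ZMod g) - ((e.1.inf : ℕ) : ZMod g) = s := by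
      intro e he
      simp only [mem_filter, mem_univ, true_and] at he
      unfold blk at he
      split_ifs at he with h
      simpa [Prod.mk.injEq] using he
    have hle : (univ.filter (fun e : Pairs n => blk g e = Sum.inl (a, c, s))).card ≤
        (univ : Finset (ZMod g)).card := by
      apply card_le_card_of_injOn (fun e => ((e.1.inf : ℕ) : ZMod g))
      · intro e _; simp
      · intro e he f hf hef
        have h1 := hsub e he
        have h2 := hsub f hf
        simp only at hef
        have i1 : e.1.inf = f.1.inf := by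
          apply Fin.ext
          have e1 : (e.1.inf : ℕ) / g = (f.1.inf : ℕ) / g := by
            have := congrArg Fin.val (h1.1.trans h2.1.symm)
            exact this
          have e2 : (e.1.inf : ℕ) % g = (f.1.inf : ℕ) % g :=
            (ZMod.natCast_eq_natCast_iff' _ _ _).1 hef
          rw [← Nat.div_add_mod (e.1.inf : ℕ) g, ← Nat.div_add_mod (f.1.inf : ℕ) g, e1, e2]
        have i2 : e.1.sup = f.1.sup := by
          apply Fin.ext
          have e1 : (e.1.sup : ℕ) / g = (f.1.sup : ℕ) / g := by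
            have := congrArg Fin.val (h1.2.1.trans h2.2.1.symm)
            exact this
          have hes : ((e.1.sup : ℕ) : ZMod g) = ((f.1.sup : ℕ) : ZMod g) := by
            have h3 := h1.2.2.trans h2.2.2.symm
            rw [hef] at h3
            exact sub_left_injective h3
          have e2 : (e.1.sup : ℕ) % g = (f.1.sup : ℕ) % g :=
            (ZMod.natCast_eq_natCast_iff' _ _ _).1 hes
          rw [← Nat.div_add_mod (e.1.sup : ℕ) g, ← Nat.div_add_mod (f.1.sup : ℕ) g, e1, e2]
        apply Subtype.ext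
        rw [← Sym2.inf_eq_inf_and_sup_eq_sup]
        exact ⟨i1, i2⟩
    refine hle.trans ?_
    rw [card_univ, ZMod.card]
  · have : (univ.filter (fun e : Pairs n => blk g e = Sum.inr e0)).card ≤ 1 := by
      rw [card_le_one]
      intro e he f hf
      simp only [mem_filter, mem_univ, true_and] at he hf
      unfold blk at he hf
      split_ifs at he hf with h h'
      · have h1 := Sum.inr.inj he
        have h2 := Sum.inr.inj hf
        rw [h1, h2]
    omega

end Q299.Dep
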