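import Pool.Agent.Q299.Dep.Conn

/-!
# Probability that the block model is connected
-/

set_option linter.unusedSectionVars false

namespace Q299.Dep

open MeasureTheory ProbabilityTheory Finset

open Pool.Agent.W166.Gnp

variable {n g : ℕ} [hg : Fact g.Prime]

/-- the blocks between two groups -/
def fam (g : ℕ) [NeZero g] (a c : Fin n) (Q : ZMod g → Prop) [DecidablePred Q] : Finset (Blk n g) :=
  (univ.filter Q).image (fun s => Sum.inl (min a c, max a c, s))

lemma mem_fam (a c : Fin n) (Q : ZMod g → Prop) [DecidablePred Q] (b : Blk n g) :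
    b ∈ fam g a c Q ↔ ∃ s, Q s ∧ b = Sum.inl (min a c, max a c, s) := by
  unfold fam
  simp only [mem_image, mem_filter, mem_univ, true_and]
  constructor
  · rintro ⟨s, hs, rfl⟩; exact ⟨s, hs, rfl⟩
  · rintro ⟨s, hs, rfl⟩; exact ⟨s, hs, rfl⟩

lemma card_fam (a c : Fin n) (Q : ZMod g → Prop) [DecidablePred Q] :
    (fam g a c Q).card = (univ.filter Q).card := by
  unfold fam
  rw [card_image_of_injective]
  intro s t hst
  simpa using hst

lemma disj_fam (a c a' c' : Fin n) (Q Q' : ZMod g → Prop) [DecidablePred Q] [DecidablePred Q']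
    (h : ¬ (min a c = min a' c' ∧ max a c = max a' c')) : Disjoint (fam g a c Q) (fam g a' c' Q') := by
  rw [disjoint_left]
  intro b hb hb'
  rw [mem_fam] at hb hb'
  obtain ⟨s, _, rfl⟩ := hb
  obtain ⟨s', _, h2⟩ := hb'
  simp only [Sum.inl.injEq, Prod.mk.injEq] at h2
  exact h ⟨h2.1, h2.2.1⟩

lemma disj_fam' (a c a' c' : Fin n) (Q Q' : ZMod g → Prop) [DecidablePred Q] [DecidablePred Q']
    (h : ∀ s, Q s → ¬ Q' s) : Disjoint (fam g a c Q) (fam g a' c' Q') := by
  rw [disjoint_left]
  intro b hb hb'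
  rw [mem_fam] at hb hb'
  obtain ⟨s, hs, rfl⟩ := hb
  obtain ⟨s', hs', h2⟩ := hb'
  simp only [Sum.inl.injEq, Prod.mk.injEq] at h2
  obtain ⟨_, _, rfl⟩ := h2
  exact h s hs hs'

lemma card_val_lt (h : ℕ) (hh : h ≤ g) :
    (univ.filter (fun s : ZMod g => s.val < h)).card = h := by
  refine Eq.trans ?_ (card_range h)
  apply card_nbij' (fun s : ZMod g => s.val) (fun k : ℕ => (k : ZMod g))
  · intro s hs
    simpa using hs
  · intro k hk
    simp only [coe_range, Set.mem_Iio] at hk
    simp only [coe_filter, mem_univ, true_and, Set.mem_ofPred_eq]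
    rw [ZMod.val_natCast, Nat.mod_eq_of_lt (by omega)]
    exact hk
  · intro s _
    simp
  · intro k hk
    simp only [coe_range, Set.mem_Iio] at hk
    simp only
    rw [ZMod.val_natCast, Nat.mod_eq_of_lt (by omega)]

/-- full groups other than the first one -/
def full (n g : ℕ) : Finset (Fin n) := univ.filter (fun c : Fin n => c.1 ≠ 0 ∧ (c.1 + 1) * g ≤ n)

lemma mem_full {c : Fin n} : c ∈ full n g ↔ c.1 ≠ 0 ∧ (c.1 + 1) * g ≤ n := by
  simp [full]

lemma card_full : (full n g).card = n / g - 1 := by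
  have : (full n g).card = (Finset.Ico 1 (n / g)).card := by
    apply card_nbij (fun c : Fin n => c.1)
    · intro c hc
      rw [mem_coe, mem_full] at hc
      rw [mem_coe, mem_Ico]
      have := (Nat.le_div_iff_mul_le hg.1.pos).2 hc.2
      simp only
      omega
    · intro c _ c' _ h
      exact Fin.ext h
    · intro k hk
      simp only [coe_Ico, Set.mem_Ico] at hk
      have h1 : (k + 1) * g ≤ n := (Nat.le_div_iff_mul_le hg.1.pos).1 (by omega)
      have h2 : k < n := by
        have := hg.1.pos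
        nlinarith
      refine ⟨⟨k, h2⟩, ?_, rfl⟩
      rw [mem_coe, mem_full]
      exact ⟨by simp only; omega, h1⟩
  rw [this, Nat.card_Ico]

/-- groups with at least one vertex, other than the first one -/
def grps (n g : ℕ) : Finset (Fin n) := univ.filter (fun c : Fin n => c.1 ≠ 0 ∧ c.1 * g < n)

lemma mem_grps {c : Fin n} : c ∈ grps n g ↔ c.1 ≠ 0 ∧ c.1 * g < n := by
  simp [grps]

lemma card_grps : (grps n g).card ≤ n / g := by
  have : (grps n g).card ≤ (Finset.Ico 1 (n / g + 1)).card := by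
    apply card_le_card_of_injOn (fun c : Fin n => c.1)
    · intro c hc
      rw [mem_coe, mem_grps] at hc
      rw [mem_coe, mem_Ico]
      have := (Nat.le_div_iff_mul_le hg.1.pos).2 hc.2.le
      simp only
      omega
    · intro c _ c' _ h
      exact Fin.ext h
  rw [Nat.card_Ico] at this
  simpa using this

/-- failure of the first condition at `a` -/
def Bad1 (z a : Fin n) (R : Finset (Blk n g)) : Prop :=
  ∀ c ∈ (full n g).erase a, ¬ ((∃ y ∈ fam g a c (fun _ => True), y ∈ R) ∧
    (∃ y ∈ fam g z c (fun _ => True), y ∈ R))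

/-- failure of the second condition -/
def Bad2 (z : Fin n) (h : ℕ) (R : Finset (Blk n g)) : Prop :=
  ∀ c ∈ full n g, ¬ ((∃ y ∈ fam g z c (fun s => s.val < h), y ∈ R) ∧
    (∃ y ∈ fam g z c (fun s => ¬ s.val < h), y ∈ R))

theorem connected_of_not_bad (z : Fin n) (hz : z.1 = 0) (hgn : g ≤ n) (h : ℕ)
    (R : Finset (Blk n g)) (h1 : ¬ ∃ a ∈ grps n g, Bad1 z a R) (h2 : ¬ Bad2 z h R) :
    (blockGraph (blk g) R).Connected := by
  apply connected_of R z hz hgn
  · intro a haz han
    have ha : a ∈ grps n g := by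
      rw [mem_grps]
      exact ⟨fun hh => haz (Fin.ext (hh.trans hz.symm)), han⟩
    have h3 : ¬ Bad1 z a R := fun hb => h1 ⟨a, ha, hb⟩
    unfold Bad1 at h3
    push Not at h3
    obtain ⟨c, hc, ⟨y, hy, hyR⟩, ⟨y', hy', hyR'⟩⟩ := h3
    rw [mem_erase, mem_full] at hc
    refine ⟨c, ?_, hc.1, hc.2.2, ?_, ?_⟩
    · rintro rfl
      exact hc.2.1 hz
    · rw [mem_fam] at hy
      obtain ⟨s, _, rfl⟩ := hy
      exact ⟨s, hyR⟩
    · rw [mem_fam] at hy'
      obtain ⟨s, _, rfl⟩ := hy'
      exact ⟨s, hyR'⟩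
  · unfold Bad2 at h2
    push Not at h2
    obtain ⟨c, hc, ⟨y, hy, hyR⟩, ⟨y', hy', hyR'⟩⟩ := h2
    rw [mem_full] at hc
    rw [mem_fam] at hy hy'
    obtain ⟨s, hs, rfl⟩ := hy
    obtain ⟨s', hs', rfl⟩ := hy'
    have hzc : z ≤ c := by rw [Fin.le_def, hz]; exact Nat.zero_le _
    rw [min_eq_left hzc, max_eq_right hzc] at hyR hyR'
    refine ⟨c, s, s', ?_, hc.2, ?_, hyR, hyR'⟩
    · rintro rfl
      exact hc.1 hz
    · rintro rfl
      exact absurd hs (not_lt.2 hs')

theorem Pr_bad1 {p : ℝ} (h0 : 0 ≤ p) (h1 : p ≤ 1) (z a : Fin n) (hz : z.1 = 0) (ha : a.1 ≠ 0) :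
    Pr (univ : Finset (Blk n g)) p (Bad1 z a) ≤
      2 * Real.exp (-((1 - (1 - p) ^ (g / 2)) ^ 2 * ((n / g - 2 : ℕ) : ℝ) / 2)) := by
  have hza : z ≠ a := by rintro rfl; exact ha hz
  have hle : ∀ c : Fin n, z ≤ c := by intro c; rw [Fin.le_def, hz]; exact Nat.zero_le _
  refine (hit_pairs h0 h1 ((full n g).erase a) (fun c => fam g a c (fun _ => True))
    (fun c => fam g z c (fun _ => True)) (fun c _ => subset_univ _) (fun c _ => subset_univ _) ?_ ?_
    (g / 2) ?_ ?_).trans ?_
  · intro c hc c' hc' hne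
    rw [mem_coe, mem_erase, mem_full] at hc hc'
    have hcz : c ≠ z := by rintro rfl; exact hc.2.1 hz
    have hcz' : c' ≠ z := by rintro rfl; exact hc'.2.1 hz
    have m1 : min a c ≠ z := by
      rcases min_choice a c with h | h <;> rw [h]
      · exact hza.symm
      · exact hcz
    have m2 : min a c' ≠ z := by
      rcases min_choice a c' with h | h <;> rw [h]
      · exact hza.symm
      · exact hcz'
    rw [Function.onFun, disjoint_union_left, disjoint_union_right, disjoint_union_right]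
    refine ⟨⟨disj_fam _ _ _ _ _ _ ?_, disj_fam _ _ _ _ _ _ ?_⟩,
      ⟨disj_fam _ _ _ _ _ _ ?_, disj_fam _ _ _ _ _ _ ?_⟩⟩
    · rintro ⟨e1, e2⟩
      apply hne
      rcases le_total a c with h | h <;> rcases le_total a c' with h' | h'
      · rwa [max_eq_right h, max_eq_right h'] at e2
      · rw [max_eq_right h, max_eq_left h'] at e2
        exact absurd e2 hc.1
      · rw [max_eq_left h, max_eq_right h'] at e2
        exact absurd e2.symm hc'.1
      · rwa [min_eq_right h, min_eq_right h'] at e1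
    · rintro ⟨e1, e2⟩
      rw [min_eq_left (hle c')] at e1
      exact m1 e1
    · rintro ⟨e1, e2⟩
      rw [min_eq_left (hle c)] at e1
      exact m2 e1.symm
    · rintro ⟨e1, e2⟩
      rw [max_eq_right (hle c), max_eq_right (hle c')] at e2
      exact hne e2
  · intro c hc
    rw [mem_erase, mem_full] at hc
    have hcz : c ≠ z := by rintro rfl; exact hc.2.1 hz
    apply disj_fam
    rintro ⟨e1, e2⟩
    rw [min_eq_left (hle c)] at e1
    rcases min_choice a c with h | h <;> rw [h] at e1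
    · exact hza e1.symm
    · exact hcz e1
  · intro c _
    rw [card_fam]
    simp only [filter_true, card_univ, ZMod.card]
    omega
  · intro c _
    rw [card_fam]
    simp only [filter_true, card_univ, ZMod.card]
    omega
  · have hcard : n / g - 2 ≤ ((full n g).erase a).card := by
      have := pred_card_le_card_erase (s := full n g) (a := a)
      rw [card_full] at this
      omega
    have hc : ((n / g - 2 : ℕ) : ℝ) ≤ (((full n g).erase a).card : ℝ) := by exact_mod_cast hcard
    have : (1 - (1 - p) ^ (g / 2)) ^ 2 * ((n / g - 2 : ℕ) : ℝ) ≤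
      (1 - (1 - p) ^ (g / 2)) ^ 2 * (((full n g).erase a).card : ℝ) :=
      mul_le_mul_of_nonneg_left hc (sq_nonneg _)
    gcongr

theorem Pr_bad2 {p : ℝ} (h0 : 0 ≤ p) (h1 : p ≤ 1) (z : Fin n) (hz : z.1 = 0) :
    Pr (univ : Finset (Blk n g)) p (Bad2 z (g / 2)) ≤
      2 * Real.exp (-((1 - (1 - p) ^ (g / 2)) ^ 2 * ((n / g - 2 : ℕ) : ℝ) / 2)) := by
  have hle : ∀ c : Fin n, z ≤ c := by intro c; rw [Fin.le_def, hz]; exact Nat.zero_le _
  refine (hit_pairs h0 h1 (full n g) (fun c => fam g z c (fun s => s.val < g / 2))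
    (fun c => fam g z c (fun s => ¬ s.val < g / 2)) (fun c _ => subset_univ _)
    (fun c _ => subset_univ _) ?_ ?_
    (g / 2) ?_ ?_).trans ?_
  · intro c hc c' hc' hne
    have key : ¬ (min z c = min z c' ∧ max z c = max z c') := by
      rintro ⟨e1, e2⟩
      rw [max_eq_right (hle c), max_eq_right (hle c')] at e2
      exact hne e2
    rw [Function.onFun, disjoint_union_left, disjoint_union_right, disjoint_union_right]
    exact ⟨⟨disj_fam _ _ _ _ _ _ key, disj_fam _ _ _ _ _ _ key⟩,
      ⟨disj_fam _ _ _ _ _ _ key, disj_fam _ _ _ _ _ _ key⟩⟩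
  · intro c hc
    apply disj_fam'
    intro s hs hs'
    exact hs' hs
  · intro c _
    rw [card_fam, card_val_lt _ (by omega)]
  · intro c _
    rw [card_fam]
    have := card_filter_add_card_filter_not (s := (univ : Finset (ZMod g))) (fun s => s.val < g / 2)
    rw [card_univ, ZMod.card, card_val_lt _ (by omega)] at this
    omega
  · have hcard : n / g - 2 ≤ (full n g).card := by
      rw [card_full]
      omega
    have hc : ((n / g - 2 : ℕ) : ℝ) ≤ ((full n g).card : ℝ) := by exact_mod_cast hcard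
    have : (1 - (1 - p) ^ (g / 2)) ^ 2 * ((n / g - 2 : ℕ) : ℝ) ≤
      (1 - (1 - p) ^ (g / 2)) ^ 2 * ((full n g).card : ℝ) :=
      mul_le_mul_of_nonneg_left hc (sq_nonneg _)
    gcongr

/-- probability of connectedness -/
theorem Pr_connected {p : ℝ} (h0 : 0 ≤ p) (h1 : p ≤ 1) (hgn : g ≤ n) :
    1 - 2 * (((n / g : ℕ) : ℝ) + 1) *
      Real.exp (-((1 - (1 - p) ^ (g / 2)) ^ 2 * ((n / g - 2 : ℕ) : ℝ) / 2)) ≤
      Pr (univ : Finset (Blk n g)) p (fun R => (blockGraph (blk g) R).Connected) := by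
  have hn : 0 < n := lt_of_lt_of_le hg.1.pos hgn
  set z : Fin n := ⟨0, hn⟩ with hzdef
  have hz : z.1 = 0 := rfl
  set X := Real.exp (-((1 - (1 - p) ^ (g / 2)) ^ 2 * ((n / g - 2 : ℕ) : ℝ) / 2)) with hX
  have hX0 : 0 < X := Real.exp_pos _
  have b1 : Pr (univ : Finset (Blk n g)) p (fun R => ¬ (blockGraph (blk g) R).Connected) ≤
      Pr (univ : Finset (Blk n g)) p (fun R => (∃ a ∈ grps n g, Bad1 z a R) ∨ Bad2 z (g / 2) R) := by
    apply Pr_mono h0 h1
    intro R _ hR
    by_contra hcon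
    push Not at hcon
    apply hR
    apply connected_of_not_bad z hz hgn (g / 2) R _ hcon.2
    rintro ⟨a, ha, hb⟩
    exact hcon.1 a ha hb
  have b2 := Pr_or_le (E := (univ : Finset (Blk n g))) h0 h1
    (fun R => ∃ a ∈ grps n g, Bad1 z a R) (Bad2 z (g / 2))
  have b3 := Pr_exists_le (E := (univ : Finset (Blk n g))) h0 h1 (grps n g) (fun a => Bad1 z a)
  have b4 : ∑ a ∈ grps n g, Pr (univ : Finset (Blk n g)) p (Bad1 z a) ≤
      ((n / g : ℕ) : ℝ) * (2 * X) := by
    calc ∑ a ∈ grps n g, Pr (univ : Finset (Blk n g)) p (Bad1 z a) ≤ ∑ a ∈ grps n g, 2 * X := by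
          apply sum_le_sum
          intro a ha
          rw [mem_grps] at ha
          exact Pr_bad1 h0 h1 z a hz ha.1
      _ = ((grps n g).card : ℝ) * (2 * X) := by rw [sum_const, nsmul_eq_mul]
      _ ≤ _ := by
          apply mul_le_mul_of_nonneg_right _ (by positivity)
          exact_mod_cast card_grps
  have b5 := Pr_bad2 (n := n) (g := g) h0 h1 z hz
  have b6 := Pr_not (E := (univ : Finset (Blk n g))) (p := p)
    (fun R => (blockGraph (blk g) R).Connected)
  rw [b6] at b1
  have : (1 : ℝ) - Pr (univ : Finset (Blk n g)) p (fun R => (blockGraph (blk g) R).Connected) ≤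
      ((n / g : ℕ) : ℝ) * (2 * X) + 2 * X := by
    linarith
  linarith

end Q299.Dep
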