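import Pool.Agent.Q299.Dep.Block

/-!
# Number of edges of a locally dependent random graph
-/

set_option linter.unusedSectionVars false

namespace Q299.Dep

open MeasureTheory ProbabilityTheory Finset

variable {n d : ℕ} {p : ℝ} {μ : Measure (SimpleGraph (Fin n))}

lemma IsDDependent.mono {d' : ℕ} (h : IsDDependent n d p μ) (hd : d ≤ d') :
    IsDDependent n d' p μ := by
  obtain ⟨h1, h2, D, h3, h4⟩ := h
  exact ⟨h1, h2, D, fun e => (h3 e).trans hd, h4⟩

/-- indicator of an edge -/
noncomputable def ind (e : Pairs n) (G : SimpleGraph (Fin n)) : ℝ :=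
  Set.indicator {G : SimpleGraph (Fin n) | e.1 ∈ G.edgeSet} (fun _ => (1 : ℝ)) G

lemma ind_eq (e : Pairs n) (G : SimpleGraph (Fin n)) [Decidable (e.1 ∈ G.edgeSet)] :
    ind e G = if e.1 ∈ G.edgeSet then 1 else 0 := by
  unfold ind Set.indicator
  simp only [Set.mem_ofPred_eq]

lemma meas_set (A : Set (SimpleGraph (Fin n))) : MeasurableSet A := trivial

lemma measurable_any {X : Type*} [MeasurableSpace X] (f : SimpleGraph (Fin n) → X) :
    Measurable f := fun _ _ => trivial

/-- number of edges -/
lemma ncard_edgeSet (G : SimpleGraph (Fin n)) : (G.edgeSet.ncard : ℝ) = ∑ e : Pairs n, ind e G := by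
  classical
  have h1 : G.edgeSet.ncard = (univ.filter (fun e : Pairs n => e.1 ∈ G.edgeSet)).card := by
    have h2 : G.edgeSet = ((univ.filter (fun e : Pairs n => e.1 ∈ G.edgeSet)).image
        (fun e => e.1) : Finset (Sym2 (Fin n))) := by
      ext e
      simp only [coe_image, coe_filter, mem_univ, true_and, Set.mem_image, Set.mem_ofPred_eq,
        Subtype.exists, exists_and_left, exists_prop, exists_eq_right_right]
      constructor
      · intro h
        exact ⟨h, SimpleGraph.not_isDiag_of_mem_edgeSet _ h⟩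
      · exact fun h => h.1
    have h3 := congrArg Set.ncard h2
    rw [Set.ncard_coe_finset, card_image_of_injective _ Subtype.val_injective] at h3
    exact h3
  rw [h1, card_filter]
  push_cast
  apply sum_congr rfl
  intro e _
  rw [ind_eq]

lemma memLp_ind [IsProbabilityMeasure μ] (e : Pairs n) : MemLp (ind e) 2 μ := by
  unfold ind
  exact memLp_indicator_const 2 (meas_set _) 1 (Or.inr (measure_ne_top _ _))

lemma integral_ind (h0 : 0 ≤ p) (h : IsDDependent n d p μ) (e : Pairs n) : μ[ind e] = p := by
  have := h.prob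
  have h1 : ind e = Set.indicator {G : SimpleGraph (Fin n) | e.1 ∈ G.edgeSet} 1 := rfl
  rw [h1, integral_indicator_one (meas_set _), Measure.real, h.edge e, ENNReal.toReal_ofReal h0]

lemma integrable_ind [IsProbabilityMeasure μ] (e : Pairs n) : Integrable (ind e) μ :=
  (memLp_ind e).integrable (by norm_num)

lemma indep_ind (h : IsDDependent n d p μ) : ∃ D : SimpleGraph (Pairs n),
    (∀ e, (D.neighborSet e).ncard ≤ d) ∧
    ∀ e f : Pairs n, f ≠ e → ¬ D.Adj e f → IndepFun (ind e) (ind f) μ := by
  classical
  obtain ⟨D, h3, h4⟩ := h.dep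
  refine ⟨D, h3, fun e f hfe hD => ?_⟩
  have h5 := h4 e
  have e1 : ind e = (fun q : Prop => if q then (1 : ℝ) else 0) ∘
      (fun G : SimpleGraph (Fin n) => e.1 ∈ G.edgeSet) := by
    funext G
    simp only [Function.comp]
    rw [ind_eq]
    congr
  have e2 : ind f = (fun x : ({f : Pairs n // f ≠ e ∧ ¬ D.Adj e f} → Prop) =>
      if x ⟨f, hfe, hD⟩ then (1 : ℝ) else 0) ∘
      (fun (G : SimpleGraph (Fin n)) (f : {f : Pairs n // f ≠ e ∧ ¬ D.Adj e f}) =>
        f.1.1 ∈ G.edgeSet) := by
    funext G
    simp only [Function.comp]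
    rw [ind_eq]
    congr
  rw [e1, e2]
  apply h5.comp
  · exact fun _ _ => MeasurableSpace.measurableSet_top
  · have : Measurable (fun q : Prop => if q then (1 : ℝ) else 0) :=
      fun _ _ => MeasurableSpace.measurableSet_top
    exact this.comp (measurable_pi_apply _)

/-- variance of the number of edges -/
theorem variance_le (h0 : 0 ≤ p) (h : IsDDependent n d p μ) :
    Var[fun G => ∑ e : Pairs n, ind e G; μ] ≤ (Fintype.card (Pairs n) : ℝ) * ((d + 1) * p) := by
  classical
  have hprob := h.prob
  obtain ⟨D, h3, h4⟩ := indep_ind h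
  have hfun : (fun G => ∑ e : Pairs n, ind e G) = ∑ e : Pairs n, ind e := by
    funext G
    rw [Finset.sum_apply]
  rw [hfun, variance_sum' (fun e _ => memLp_ind e)]
  have hcov : ∀ e f : Pairs n, cov[ind e, ind f; μ] ≤ if f = e ∨ D.Adj e f then p else 0 := by
    intro e f
    split_ifs with hc
    · rw [covariance_eq_sub (memLp_ind e) (memLp_ind f), integral_ind h0 h, integral_ind h0 h]
      have h5 : μ[ind e * ind f] ≤ μ[ind e] := by
        apply integral_mono_of_nonneg
        · filter_upwards with G
          simp only [Pi.mul_apply, Pi.zero_apply, ind_eq]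
          split_ifs <;> norm_num
        · exact integrable_ind e
        · filter_upwards with G
          simp only [Pi.mul_apply, ind_eq]
          split_ifs <;> norm_num
      rw [integral_ind h0 h] at h5
      have := mul_nonneg h0 h0
      linarith
    · push Not at hc
      rw [(h4 e f hc.1 hc.2).covariance_eq_zero (memLp_ind e) (memLp_ind f)]
  calc ∑ e : Pairs n, ∑ f : Pairs n, cov[ind e, ind f; μ]
      ≤ ∑ e : Pairs n, ∑ f : Pairs n, if f = e ∨ D.Adj e f then p else 0 :=
        sum_le_sum fun e _ => sum_le_sum fun f _ => hcov e f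
    _ ≤ ∑ e : Pairs n, ((d + 1) * p) := by
        apply sum_le_sum
        intro e _
        rw [← sum_filter, sum_const, nsmul_eq_mul]
        apply mul_le_mul_of_nonneg_right _ h0
        have h6 : (univ.filter (fun f => f = e ∨ D.Adj e f)).card ≤ d + 1 := by
          have h7 : univ.filter (fun f => f = e ∨ D.Adj e f) ⊆
              insert e (univ.filter (fun f => D.Adj e f)) := by
            intro f hf
            simp only [mem_filter, mem_univ, true_and] at hf
            simp only [mem_insert, mem_filter, mem_univ, true_and]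
            exact hf
          refine (card_le_card h7).trans ((card_insert_le _ _).trans ?_)
          have h8 : (univ.filter (fun f => D.Adj e f)).card = (D.neighborSet e).ncard := by
            have : D.neighborSet e = ((univ.filter (fun f => D.Adj e f) : Finset (Pairs n)) :
                Set (Pairs n)) := by
              ext f; simp
            rw [this, Set.ncard_coe_finset]
          rw [h8]
          exact Nat.add_le_add_right (h3 e) 1
        exact_mod_cast h6
    _ = _ := by
        rw [sum_const, nsmul_eq_mul, card_univ]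

/-- mean of the number of edges -/
theorem mean_eq (h0 : 0 ≤ p) (h : IsDDependent n d p μ) :
    μ[fun G => ∑ e : Pairs n, ind e G] = (Fintype.card (Pairs n) : ℝ) * p := by
  have hprob := h.prob
  rw [integral_finsetSum _ (fun e _ => integrable_ind e)]
  simp_rw [integral_ind h0 h]
  rw [sum_const, nsmul_eq_mul, card_univ]

lemma card_pairs : Fintype.card (Pairs n) = n.choose 2 := by
  rw [Sym2.card_subtype_not_diag, Fintype.card_fin]

/-- Markov -/
theorem markov_edges (h0 : 0 ≤ p) (h : IsDDependent n d p μ) {k : ℝ} (hk : 0 < k) :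
    μ {G | k ≤ (G.edgeSet.ncard : ℝ)} ≤ ENNReal.ofReal ((n.choose 2 : ℝ) * p / k) := by
  have hprob := h.prob
  have h1 := mul_meas_ge_le_integral_of_nonneg (μ := μ) (f := fun G => ∑ e : Pairs n, ind e G)
    (by
      filter_upwards with G
      apply sum_nonneg
      intro e _
      classical
      rw [ind_eq]
      split_ifs <;> norm_num)
    (integrable_finsetSum _ (fun e _ => integrable_ind e)) k
  rw [mean_eq h0 h, card_pairs] at h1
  simp_rw [ncard_edgeSet]
  rw [ENNReal.le_ofReal_iff_toReal_le (measure_ne_top _ _) (by positivity), le_div_iff₀ hk]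
  rw [mul_comm]
  exact h1

/-- Chebyshev -/
theorem chebyshev_edges (h0 : 0 < p) (h : IsDDependent n d p μ) (hn : 2 ≤ n) :
    μ {G | (G.edgeSet.ncard : ℝ) ≤ (n.choose 2 : ℝ) * p / 2} ≤
      ENNReal.ofReal (4 * (d + 1) / ((n.choose 2 : ℝ) * p)) := by
  have hprob := h.prob
  have hN : (0 : ℝ) < (n.choose 2 : ℝ) := by exact_mod_cast Nat.choose_pos hn
  have hmem : MemLp (fun G => ∑ e : Pairs n, ind e G) 2 μ :=
    memLp_finsetSum _ (fun e _ => memLp_ind e)
  have hc : 0 < (n.choose 2 : ℝ) * p / 2 := by positivity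
  have h1 := meas_ge_le_variance_div_sq (μ := μ) hmem hc
  rw [mean_eq h0.le h, card_pairs] at h1
  have h2 := variance_le h0.le h
  rw [card_pairs] at h2
  refine le_trans (measure_mono ?_) (h1.trans (ENNReal.ofReal_le_ofReal ?_))
  · intro G hG
    simp only [Set.mem_ofPred_eq] at hG ⊢
    rw [ncard_edgeSet] at hG
    rw [abs_sub_comm]
    refine le_trans ?_ (le_abs_self _)
    linarith
  · rw [div_le_div_iff₀ (by positivity) (by positivity)]
    calc Var[fun G => ∑ e : Pairs n, ind e G; μ] * ((n.choose 2 : ℝ) * p)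
        ≤ ((n.choose 2 : ℝ) * ((d + 1) * p)) * ((n.choose 2 : ℝ) * p) :=
          mul_le_mul_of_nonneg_right h2 (by positivity)
      _ = _ := by ring

/-- two edges of an independent model -/
theorem pair_prob (h0 : 0 ≤ p) (h : IsDDependent n 0 p μ) (e f : Pairs n) (hef : f ≠ e) :
    μ {G | e.1 ∈ G.edgeSet ∧ f.1 ∈ G.edgeSet} = ENNReal.ofReal (p ^ 2) := by
  classical
  have hprob := h.prob
  obtain ⟨D, h3, h4⟩ := indep_ind h
  have hD : ¬ D.Adj e f := by
    intro hadj
    have h5 : (D.neighborSet e).ncard = 0 := Nat.le_zero.1 (h3 e)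
    rw [Set.ncard_eq_zero] at h5
    have : f ∈ D.neighborSet e := hadj
    rw [h5] at this
    exact this
  have h6 := (indepFun_iff_measure_inter_preimage_eq_mul.1 (h4 e f hef hD)) {1} {1}
    (measurableSet_singleton _) (measurableSet_singleton _)
  have h7 : ∀ e : Pairs n, ind e ⁻¹' {1} = {G | e.1 ∈ G.edgeSet} := by
    intro e
    ext G
    simp only [Set.mem_preimage, Set.mem_singleton_iff, Set.mem_ofPred_eq, ind_eq]
    split_ifs with hh
    · simp [hh]
    · simp [hh]
  rw [h7, h7, h.edge e, h.edge f] at h6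
  rw [show {G : SimpleGraph (Fin n) | e.1 ∈ G.edgeSet ∧ f.1 ∈ G.edgeSet} =
    {G | e.1 ∈ G.edgeSet} ∩ {G | f.1 ∈ G.edgeSet} from rfl, h6, ← ENNReal.ofReal_mul h0, sq]

end Q299.Dep
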